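import Pool.Agent.T9h8.ZN.Lin

/-!
# Project ZN, piece (MEST)
-/

set_option autoImplicit false

open MeasureTheory Filter
open scoped Matrix Pointwise Topology ENNReal

namespace Pool.Agent.T9h8.ZN

open H354ZN Pool.Agent.T9h58.ZN

theorem lc_closed {n : ℕ} (K L : Set (EuclideanSpace ℝ (Fin n))) (t : ℝ) : IsClosed (LC K L t) := by
  have h : LC K L t = ⋂ (u : EuclideanSpace ℝ (Fin n)) (_ : u ≠ 0),
      {x | inner ℝ x u ≤ hh K u ^ (1 - t) * hh L u ^ t} := by
    ext x
    simp only [Set.mem_iInter, Set.mem_ofPred_eq]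
    rfl
  rw [h]
  refine isClosed_iInter fun u => isClosed_iInter fun _ => ?_
  exact isClosed_le (continuous_id.inner continuous_const) continuous_const

theorem change {n : ℕ} (T : EuclideanSpace ℝ (Fin n) ≃ₗ[ℝ] EuclideanSpace ℝ (Fin n))
    (F : EuclideanSpace ℝ (Fin n) → ℝ≥0∞) (A : Set (EuclideanSpace ℝ (Fin n)))
    (hA : MeasurableSet A) :
    ∫⁻ x in T '' A, F (T.symm x) =
      ENNReal.ofReal |(T.toContinuousLinearEquiv : EuclideanSpace ℝ (Fin n) →L[ℝ]
        EuclideanSpace ℝ (Fin n)).det| * ∫⁻ x in A, F x := by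
  have h := lintegral_image_eq_lintegral_abs_det_fderiv_mul volume hA (f := T)
    (f' := fun _ => (T.toContinuousLinearEquiv : EuclideanSpace ℝ (Fin n) →L[ℝ]
        EuclideanSpace ℝ (Fin n)))
    (fun x _ => (T.toContinuousLinearEquiv : EuclideanSpace ℝ (Fin n) →L[ℝ]
        EuclideanSpace ℝ (Fin n)).hasFDerivAt.hasFDerivWithinAt)
    T.injective.injOn (fun x => F (T.symm x))
  rw [h]
  simp only [LinearEquiv.symm_apply_apply]
  rw [lintegral_const_mul' _ _ ENNReal.ofReal_ne_top]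

theorem mest : S_MES → S_LIN → S_MEST := by
  intro hM hLin n T f K L t hn hf hf0 hfe hfr hfc hK hL hKr hLr ht0 ht1
  obtain ⟨hK1, hLC⟩ := hLin n T K L t hK hL ht0.le ht1.le
  obtain ⟨hL1, _⟩ := hLin n T L K t hL hK ht0.le ht1.le
  have hTs : Continuous T.symm := T.symm.toLinearMap.continuous_of_finiteDimensional
  have h := hM n (fun x => f (T.symm x)) (T '' K) (T '' L) t hn (hf.comp hTs.measurable)
    (fun x => hf0 _)
    (by
      intro x
      simp only [map_neg]
      exact hfe _)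
    (by
      intro j hj x
      have h1 := hfr j hj (T.symm x)
      rw [LinearEquiv.apply_symm_apply] at h1
      exact h1)
    (by
      intro x y s hs0 hs1
      have h1 := hfc (T.symm x) (T.symm y) s hs0 hs1
      simp only [map_add, map_smul]
      exact h1)
    hK1 hL1
    (by
      rintro j hj x ⟨z, hz, rfl⟩
      exact ⟨_, hKr j hj z hz, T.apply_symm_apply _⟩)
    (by
      rintro j hj x ⟨z, hz, rfl⟩
      exact ⟨_, hLr j hj z hz, T.apply_symm_apply _⟩)
    ht0 ht1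
  rw [hLC, change T (fun x => ENNReal.ofReal (f x)) K hK.comp.measurableSet,
    change T (fun x => ENNReal.ofReal (f x)) L hL.comp.measurableSet,
    change T (fun x => ENNReal.ofReal (f x)) (LC K L t) (lc_closed K L t).measurableSet] at h
  obtain ⟨c, hc⟩ : ∃ c, c = ENNReal.ofReal |(T.toContinuousLinearEquiv :
    EuclideanSpace ℝ (Fin n) →L[ℝ] EuclideanSpace ℝ (Fin n)).det| := ⟨_, rfl⟩
  rw [← hc] at h
  have hdet : (T.toContinuousLinearEquiv : EuclideanSpace ℝ (Fin n) →L[ℝ]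
      EuclideanSpace ℝ (Fin n)).det ≠ 0 := by
    change LinearMap.det (T : EuclideanSpace ℝ (Fin n) →ₗ[ℝ] EuclideanSpace ℝ (Fin n)) ≠ 0
    exact (LinearEquiv.isUnit_det' T).ne_zero
  have hc0 : c ≠ 0 := by
    rw [hc]
    exact (ENNReal.ofReal_pos.2 (abs_pos.2 hdet)).ne'
  have hct : c ≠ ⊤ := by
    rw [hc]
    exact ENNReal.ofReal_ne_top
  rw [ENNReal.mul_rpow_of_nonneg _ _ (by linarith : (0 : ℝ) ≤ 1 - t),
    ENNReal.mul_rpow_of_nonneg _ _ ht0.le] at h
  have hcc : c ^ (1 - t) * c ^ t = c := by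
    rw [← ENNReal.rpow_add _ _ hc0 hct, sub_add_cancel, ENNReal.rpow_one]
  have h2 : c * ((∫⁻ x in K, ENNReal.ofReal (f x)) ^ (1 - t) *
      (∫⁻ x in L, ENNReal.ofReal (f x)) ^ t) ≤ c * ∫⁻ x in LC K L t, ENNReal.ofReal (f x) := by
    refine le_trans (le_of_eq ?_) h
    conv_lhs => rw [← hcc]
    ring
  exact (ENNReal.mul_le_mul_iff_right hc0 hct).1 h2

end Pool.Agent.T9h8.ZN
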