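import Pool.Agent.T9h58.ZN.Spec2

/-!
# Project ZN, piece (LIN)
-/

set_option autoImplicit false

open MeasureTheory Filter
open scoped Matrix Pointwise Topology ENNReal

namespace Pool.Agent.T9h8.ZN

open H354ZN Pool.Agent.T9h58.ZN

variable {n : ℕ}

theorem sb_image (T : EuclideanSpace ℝ (Fin n) ≃ₗ[ℝ] EuclideanSpace ℝ (Fin n))
    (K : Set (EuclideanSpace ℝ (Fin n))) (hK : SB K) : SB (T '' K) := by
  have hc : Continuous T := T.toLinearMap.continuous_of_finiteDimensional
  refine ⟨?_, hK.comp.image hc, ?_, ?_⟩
  · have h := hK.conv.linear_image T.toLinearMap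
    exact h
  · have h := T.toContinuousLinearEquiv.toHomeomorph.image_interior K
    have h2 : (0 : EuclideanSpace ℝ (Fin n)) ∈
        T.toContinuousLinearEquiv.toHomeomorph '' interior K := by
      refine ⟨0, hK.zero, ?_⟩
      change T 0 = 0
      exact map_zero T
    rw [h] at h2
    exact h2
  · rintro x ⟨y, hy, rfl⟩
    exact ⟨-y, hK.symm y hy, by rw [map_neg]⟩

theorem hh_image (T : EuclideanSpace ℝ (Fin n) ≃ₗ[ℝ] EuclideanSpace ℝ (Fin n))
    (K : Set (EuclideanSpace ℝ (Fin n))) (u : EuclideanSpace ℝ (Fin n)) :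
    hh (T '' K) u = hh K (LinearMap.adjoint T.toLinearMap u) := by
  unfold hh
  rw [Set.image_image]
  congr 1
  refine Set.image_congr fun y _ => ?_
  rw [LinearMap.adjoint_inner_right]
  rfl

theorem lin : S_LIN := by
  intro n T K L t hK hL _ _
  refine ⟨sb_image T K hK, ?_⟩
  have hinner : ∀ y u : EuclideanSpace ℝ (Fin n),
      inner ℝ y (LinearMap.adjoint T.toLinearMap u) = inner ℝ (T y) u := by
    intro y u
    rw [LinearMap.adjoint_inner_right]
    rfl
  have hinj : Function.Injective (LinearMap.adjoint T.toLinearMap) := by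
    rw [injective_iff_map_eq_zero]
    intro u hu
    have h := hinner (T.symm u) u
    rw [hu, inner_zero_right, LinearEquiv.apply_symm_apply] at h
    exact inner_self_eq_zero.1 h.symm
  have hsurj : Function.Surjective (LinearMap.adjoint T.toLinearMap) :=
    LinearMap.injective_iff_surjective.1 hinj
  ext x
  constructor
  · intro hx
    refine ⟨T.symm x, ?_, T.apply_symm_apply x⟩
    intro v hv
    obtain ⟨u, rfl⟩ := hsurj v
    have hu : u ≠ 0 := by
      rintro rfl
      exact hv (map_zero _)
    have h := hx u hu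
    rw [hinner, LinearEquiv.apply_symm_apply]
    dsimp only at h ⊢
    rwa [hh_image, hh_image] at h
  · rintro ⟨y, hy, rfl⟩
    intro u hu
    have hv : LinearMap.adjoint T.toLinearMap u ≠ 0 := by
      intro h
      apply hu
      apply hinj
      rw [h, map_zero]
    have h := hy _ hv
    rw [hinner] at h
    dsimp only at h ⊢
    rwa [hh_image, hh_image]

end Pool.Agent.T9h8.ZN
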